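import Mathlib

/-! MP_49888f_co, board ES2: the convex hull of a large circular segment and a far point is that of a smaller segment. -/

set_option autoImplicit false

namespace Pool.Agent.MP49888f.ES2

open Set

theorem hull_eq (d a : ℝ) (h0 : 0 < d) (h1 : d ≤ 1) (ha : 1 < a) (had : 1 < a * d) :
    convexHull ℝ ({p : ℝ × ℝ | p.1 ^ 2 + p.2 ^ 2 ≤ 1 ∧ p.2 ≤ d} ∪ {((0 : ℝ), a)}) =
      convexHull ℝ ({p : ℝ × ℝ | p.1 ^ 2 + p.2 ^ 2 ≤ 1 ∧ p.2 ≤ 1 / a} ∪ {((0 : ℝ), a)}) := by
  have ha0 : 0 < a := by linarith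
  have hd' : 1 / a < d := by
    rw [div_lt_iff₀ ha0]
    linarith
  apply Subset.antisymm
  · refine convexHull_min ?_ (convex_convexHull ℝ _)
    rintro q (hq | hq)
    · obtain ⟨x, y⟩ := q
      have hq1 : x ^ 2 + y ^ 2 ≤ 1 := hq.1
      rcases le_or_gt y (1 / a) with hy | hy
      · exact subset_convexHull ℝ _ (Or.inl ⟨hq.1, hy⟩)
      · obtain ⟨e, he⟩ : ∃ e : ℝ, e = 1 / a := ⟨_, rfl⟩
        rw [← he] at hy ⊢
        have hae : a * e = 1 := by rw [he]; field_simp
        have he0 : 0 < e := by rw [he]; positivity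
        have he1 : e < 1 := by rw [he, div_lt_one ha0]; exact ha
        obtain ⟨s, hs0, hs⟩ : ∃ s : ℝ, 0 < s ∧ s ^ 2 = 1 - e ^ 2 :=
          ⟨√(1 - e ^ 2), Real.sqrt_pos.2 (by nlinarith), Real.sq_sqrt (by nlinarith)⟩
        have hx : |x| * s + y * e ≤ 1 := by
          have h2 : (|x| * s + y * e) ^ 2 + (|x| * e - y * s) ^ 2 = (x ^ 2 + y ^ 2) * (s ^ 2 + e ^ 2) := by
            rw [← sq_abs x]
            ring
          have h3 : s ^ 2 + e ^ 2 = 1 := by rw [hs]; ring
          rw [h3, mul_one] at h2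
          have h4 := sq_nonneg (|x| * e - y * s)
          by_contra hcon
          push Not at hcon
          nlinarith
        have hy1 : y ≤ 1 := by nlinarith [sq_nonneg x]
        have hay : 0 < a - y := by linarith
        have haee : 0 < a - e := by linarith
        have has : a - e = a * s ^ 2 := by
          rw [hs]
          linear_combination e * hae
        have hkey : |x| * (a - e) ≤ (a - y) * s := by
          calc |x| * (a - e) = a * s * (|x| * s) := by rw [has]; ring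
            _ ≤ a * s * (1 - y * e) := mul_le_mul_of_nonneg_left (by linarith) (by positivity)
            _ = s * (a - y * (a * e)) := by ring
            _ = (a - y) * s := by rw [hae]; ring
        obtain ⟨u, hu⟩ : ∃ u : ℝ, u = x * (a - e) / ((a - y) * s) := ⟨_, rfl⟩
        have hu1 : |u| ≤ 1 := by
          rw [hu, abs_div, abs_mul, abs_of_pos haee, abs_of_pos (mul_pos hay hs0), div_le_one (mul_pos hay hs0)]
          exact hkey
        obtain ⟨hu2, hu3⟩ := abs_le.1 hu1
        have hA : ((s, e) : ℝ × ℝ) ∈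
            convexHull ℝ ({p : ℝ × ℝ | p.1 ^ 2 + p.2 ^ 2 ≤ 1 ∧ p.2 ≤ e} ∪ {((0 : ℝ), a)}) :=
          subset_convexHull ℝ _ (Or.inl ⟨by show s ^ 2 + e ^ 2 ≤ 1; linarith, le_rfl⟩)
        have hB : ((-s, e) : ℝ × ℝ) ∈
            convexHull ℝ ({p : ℝ × ℝ | p.1 ^ 2 + p.2 ^ 2 ≤ 1 ∧ p.2 ≤ e} ∪ {((0 : ℝ), a)}) :=
          subset_convexHull ℝ _ (Or.inl ⟨by show (-s) ^ 2 + e ^ 2 ≤ 1; nlinarith, le_rfl⟩)
        have hP : ((0 : ℝ), a) ∈
            convexHull ℝ ({p : ℝ × ℝ | p.1 ^ 2 + p.2 ^ 2 ≤ 1 ∧ p.2 ≤ e} ∪ {((0 : ℝ), a)}) :=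
          subset_convexHull ℝ _ (Or.inr rfl)
        have hcv := convex_convexHull ℝ ({p : ℝ × ℝ | p.1 ^ 2 + p.2 ^ 2 ≤ 1 ∧ p.2 ≤ e} ∪ {((0 : ℝ), a)})
        have hC := hcv hA hB (by linarith : 0 ≤ (1 + u) / 2) (by linarith : 0 ≤ (1 - u) / 2) (by ring)
        have hw0 : 0 ≤ (y - e) / (a - e) := div_nonneg (by linarith) haee.le
        have hw1 : 0 ≤ (a - y) / (a - e) := div_nonneg hay.le haee.le
        have hD := hcv hP hC hw0 hw1 (by field_simp; ring)
        have heq : ((x, y) : ℝ × ℝ) = ((y - e) / (a - e)) • ((0 : ℝ), a) +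
            ((a - y) / (a - e)) • (((1 + u) / 2) • ((s, e) : ℝ × ℝ) + ((1 - u) / 2) • ((-s, e) : ℝ × ℝ)) := by
          have hus : (1 + u) / 2 * s + (1 - u) / 2 * (-s) = u * s := by ring
          have hue : (1 + u) / 2 * e + (1 - u) / 2 * e = e := by ring
          refine Prod.ext ?_ ?_
          · simp only [Prod.fst_add, Prod.smul_fst, smul_eq_mul, mul_zero, zero_add]
            rw [hus, hu]
            field_simp
          · simp only [Prod.snd_add, Prod.smul_snd, smul_eq_mul]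
            rw [hue]
            field_simp
            ring
        rw [heq]
        exact hD
    · rw [mem_singleton_iff] at hq
      rw [hq]
      exact subset_convexHull ℝ _ (Or.inr rfl)
  · exact convexHull_mono (union_subset_union_left _ (fun p hp => ⟨hp.1, hp.2.trans hd'.le⟩))

end Pool.Agent.MP49888f.ES2
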