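import Mathlib

/-! MP_49888f_co, board ES2: inequality for arcs of at most half a circle. -/

set_option autoImplicit false

namespace Pool.Agent.MP49888f.ES2

theorem ineq_a (b t a : ℝ) (hb : 0 < b) (hb2 : b ≤ Real.pi / 2) (hbt : b = 3 * t) (ha : -Real.cos b ≤ a)
    (h : a ≤ 0 ∨ b ≤ Real.pi / 3)
    (htrig : 3 * √3 * (3 * (2 * t) - Real.sin (3 * (2 * t))) ≤ 8 * Real.pi * Real.sin (2 * t) ^ 3) :
    3 * √3 * (b + a * Real.sin b) ≤ Real.pi * (2 * (Real.sin t + Real.sin b) *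
      (Real.cos t + a - Real.sin t * (a + Real.cos b) / Real.sin b)) := by
  have hpi := Real.pi_pos
  have ht : 0 < t := by linarith
  have ht6 : t ≤ Real.pi / 6 := by linarith
  have hpi1 := Real.pi_gt_d6
  have hpi2 := Real.pi_lt_d6
  obtain ⟨s, hs⟩ : ∃ s, s = Real.sin t := ⟨_, rfl⟩
  obtain ⟨c, hc⟩ : ∃ c, c = Real.cos t := ⟨_, rfl⟩
  obtain ⟨w, hw⟩ : ∃ w, w = √3 := ⟨_, rfl⟩
  have hw0 : 0 < w := hw ▸ Real.sqrt_pos.mpr (by norm_num)
  have hw2 : w ^ 2 = 3 := by rw [hw]; exact Real.sq_sqrt (by norm_num)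
  have hs0 : 0 < s := hs ▸ Real.sin_pos_of_pos_of_lt_pi ht (by linarith)
  have hc0 : 0 < c := hc ▸ Real.cos_pos_of_mem_Ioo ⟨by linarith, by linarith⟩
  have hsc : s ^ 2 + c ^ 2 = 1 := by rw [hs, hc]; exact Real.sin_sq_add_cos_sq t
  have hsb : Real.sin b = s * (4 * c ^ 2 - 1) := by
    rw [hbt, Real.sin_three_mul, ← hs]
    linear_combination (-4 * s) * hsc
  have hcb : Real.cos b = c * (4 * c ^ 2 - 3) := by
    rw [hbt, Real.cos_three_mul, ← hc]
    ring
  have hB0 : 0 < Real.sin b := Real.sin_pos_of_pos_of_lt_pi hb (by linarith)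
  have hk0 : 0 < 4 * c ^ 2 - 1 := by
    rw [hsb] at hB0
    exact (mul_pos_iff_of_pos_left hs0).mp hB0
  have hC0 : 0 ≤ Real.cos b := Real.cos_nonneg_of_mem_Icc ⟨by linarith, hb2⟩
  -- the value at `a = - cos b`
  have hF : 3 * w * (4 * c ^ 2 - 1) * (3 * t - c * (4 * c ^ 2 - 3) * s * (4 * c ^ 2 - 1)) ≤
      16 * Real.pi * c ^ 2 * s * (c - c * (4 * c ^ 2 - 3) * (2 * c ^ 2 - 1)) := by
    rw [Real.sin_three_mul, Real.sin_two_mul, ← hs, ← hc, ← hw] at htrig
    have h1 := mul_le_mul_of_nonneg_left htrig (by linarith : (0 : ℝ) ≤ (4 * c ^ 2 - 1) / 2)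
    have h2 : 16 * Real.pi * c ^ 2 * s * (c - c * (4 * c ^ 2 - 3) * (2 * c ^ 2 - 1)) -
        3 * w * (4 * c ^ 2 - 1) * (3 * t - c * (4 * c ^ 2 - 3) * s * (4 * c ^ 2 - 1)) =
        (4 * c ^ 2 - 1) / 2 * (8 * Real.pi * (2 * s * c) ^ 3) -
        (4 * c ^ 2 - 1) / 2 * (3 * w * (3 * (2 * t) - (3 * (2 * s * c) - 4 * (2 * s * c) ^ 3))) := by
      linear_combination (-32 * Real.pi * c ^ 3 * s * (4 * c ^ 2 - 1) +
        48 * w * (4 * c ^ 2 - 1) * s * c ^ 3) * hsc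
    linarith
  have key : 3 * w * (b + a * (s * (4 * c ^ 2 - 1))) * (4 * c ^ 2 - 1) ≤
      16 * Real.pi * c ^ 2 * s * (c + a * (2 * c ^ 2 - 1)) := by
    rw [hcb] at ha hC0
    rcases h with h | h
    · -- the value at `a = 0`
      have hlin : 3 * t ≤ Real.pi * s := by
        have h6 : Real.sin (Real.pi / 6) = 1 / 2 := Real.sin_pi_div_six
        have hl0 : 0 ≤ 6 * t / Real.pi := by positivity
        have hl1 : 6 * t / Real.pi ≤ 1 := by
          rw [div_le_one hpi]; linarith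
        have m0 : (0 : ℝ) ∈ Set.Icc 0 Real.pi := ⟨le_refl _, hpi.le⟩
        have m6 : Real.pi / 6 ∈ Set.Icc 0 Real.pi := ⟨by linarith, by linarith⟩
        have hl2 : 0 ≤ 1 - 6 * t / Real.pi := by linarith
        have hconc := strictConcaveOn_sin_Icc.concaveOn.2 m0 m6 hl2 hl0 (by ring)
        rw [Real.sin_zero, h6] at hconc
        simp only [smul_eq_mul, mul_zero, zero_add] at hconc
        have e1 : 6 * t / Real.pi * (Real.pi / 6) = t := by field_simp
        rw [e1, ← hs] at hconc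
        have e2 : Real.pi * (6 * t / Real.pi * (1 / 2)) = 3 * t := by field_simp; ring
        rw [← e2]
        exact mul_le_mul_of_nonneg_left hconc hpi.le
      have hF0 : 3 * w * (4 * c ^ 2 - 1) * (3 * t) ≤ 16 * Real.pi * c ^ 2 * s * c := by
        have h3 : 0 ≤ 48 * (c - w / 2) ^ 2 * (c + w / 4) := by positivity
        have h4 : 48 * (c - w / 2) ^ 2 * (c + w / 4) = 48 * c ^ 3 - 9 * w * (4 * c ^ 2 - 1) := by
          linear_combination (-12 * c + 3 * w + 12 * c) * hw2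
        have h5 : 0 ≤ t * (48 * c ^ 3 - 9 * w * (4 * c ^ 2 - 1)) := mul_nonneg ht.le (h4 ▸ h3)
        have h6 : 0 ≤ 16 * c ^ 3 * (Real.pi * s - 3 * t) := mul_nonneg (by positivity) (by linarith)
        nlinarith [h5, h6]
      rcases hC0.eq_or_lt with hC | hC
      · have ha0 : a = 0 := by
          rw [← hC] at ha
          linarith
        rw [ha0, hbt]
        linarith [hF0]
      · have h7 : 0 ≤ c * (4 * c ^ 2 - 3) * (16 * Real.pi * c ^ 2 * s * (c + a * (2 * c ^ 2 - 1)) -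
            3 * w * (b + a * (s * (4 * c ^ 2 - 1))) * (4 * c ^ 2 - 1)) := by
          have e : c * (4 * c ^ 2 - 3) * (16 * Real.pi * c ^ 2 * s * (c + a * (2 * c ^ 2 - 1)) -
              3 * w * (b + a * (s * (4 * c ^ 2 - 1))) * (4 * c ^ 2 - 1)) =
              (-a) * (16 * Real.pi * c ^ 2 * s * (c - c * (4 * c ^ 2 - 3) * (2 * c ^ 2 - 1)) -
                3 * w * (4 * c ^ 2 - 1) * (3 * t - c * (4 * c ^ 2 - 3) * s * (4 * c ^ 2 - 1))) +
              (a + c * (4 * c ^ 2 - 3)) * (16 * Real.pi * c ^ 2 * s * c - 3 * w * (4 * c ^ 2 - 1) * (3 * t)) := by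
            rw [hbt]; ring
          rw [e]
          exact add_nonneg (mul_nonneg (by linarith) (by linarith)) (mul_nonneg (by linarith) (by linarith))
        have h8 := (mul_nonneg_iff_of_pos_left hC).mp h7
        linarith
    · have ht9 : t ≤ Real.pi / 9 := by linarith
      have hst : s < t := hs ▸ Real.sin_lt ht
      have hs1 : s < 0.34907 := by linarith
      have hs2 : s ^ 2 < 0.12185 := by nlinarith
      have hk : 4 * c ^ 2 - 1 > 2.5126 := by nlinarith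
      have hk2 : (4 * c ^ 2 - 1) ^ 2 > 6.313 := by nlinarith
      have hw3 : w < 1.73206 := by
        rcases lt_or_ge w 1.73206 with h1 | h1
        · exact h1
        · nlinarith
      have hcoef : 0 ≤ 2 * Real.pi * ((4 * c ^ 2 - 1) ^ 2 - 1) - 3 * w * (4 * c ^ 2 - 1) ^ 2 := by
        have h1 : 1.087 < 2 * Real.pi - 3 * w := by linarith
        have h2 : (1.087 : ℝ) * 6.313 < (2 * Real.pi - 3 * w) * (4 * c ^ 2 - 1) ^ 2 :=
          mul_lt_mul'' h1 hk2 (by norm_num) (by norm_num)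
        have h3 : 2 * Real.pi * ((4 * c ^ 2 - 1) ^ 2 - 1) - 3 * w * (4 * c ^ 2 - 1) ^ 2 =
            (2 * Real.pi - 3 * w) * (4 * c ^ 2 - 1) ^ 2 - 2 * Real.pi := by ring
        rw [h3]
        norm_num at h2
        linarith
      have h9 : 0 ≤ (a + c * (4 * c ^ 2 - 3)) * s *
          (2 * Real.pi * ((4 * c ^ 2 - 1) ^ 2 - 1) - 3 * w * (4 * c ^ 2 - 1) ^ 2) :=
        mul_nonneg (mul_nonneg (by linarith) hs0.le) hcoef
      have e : 16 * Real.pi * c ^ 2 * s * (c + a * (2 * c ^ 2 - 1)) -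
          3 * w * (b + a * (s * (4 * c ^ 2 - 1))) * (4 * c ^ 2 - 1) =
          (16 * Real.pi * c ^ 2 * s * (c - c * (4 * c ^ 2 - 3) * (2 * c ^ 2 - 1)) -
            3 * w * (4 * c ^ 2 - 1) * (3 * t - c * (4 * c ^ 2 - 3) * s * (4 * c ^ 2 - 1))) +
          (a + c * (4 * c ^ 2 - 3)) * s *
            (2 * Real.pi * ((4 * c ^ 2 - 1) ^ 2 - 1) - 3 * w * (4 * c ^ 2 - 1) ^ 2) := by
        rw [hbt]; ring
      linarith
  have e : Real.pi * (2 * (Real.sin t + Real.sin b) *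
      (Real.cos t + a - Real.sin t * (a + Real.cos b) / Real.sin b)) =
      16 * Real.pi * c ^ 2 * s * (c + a * (2 * c ^ 2 - 1)) / (4 * c ^ 2 - 1) := by
    rw [hsb, hcb, ← hs, ← hc]
    have hsne : s ≠ 0 := hs0.ne'
    have hkne : 4 * c ^ 2 - 1 ≠ 0 := hk0.ne'
    field_simp
    ring
  rw [e, hsb, ← hw, le_div_iff₀ hk0]
  exact key

end Pool.Agent.MP49888f.ES2
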