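import Mathlib

/-! MP_49888f_co, board ES2: inequality for arcs between 120 and 240 degrees.

PROOF. Divide by `√3`; both sides are affine in `a`, with coefficients `3 sin b` and `2π - (√3/2) π / sin b`; with
`u = sin b ∈ [√3/2, 1]`, `2π u - (√3/2) π - 3u² ≥ 0` (concave in `u`, positive at both ends). So it is enough to have
the smallest `a`: (1) `b ≤ π/2`, `a = 0`: `3 b ≤ π (3/2 - (√3/2) cos b / sin b)`: equality at `π/3` and `π/2`, and `-cot` is
concave on `(0, π/2]` (for `b ∈ [π/3, π/2]`; `cot' = -1/sin²`, decreasing in absolute value; any proof);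
(2) `b ≥ π/2`, `a = -cos b`: `3 (b - sin b cos b) ≤ π (3/2 - 2 cos b)` from `hA` and `-cos b ≥ 0`, `π ≥ 3`. -/

set_option autoImplicit false

namespace Pool.Agent.MP49888f.ES2

private lemma IneqB_g {x : ℝ} (h0 : 0 ≤ x) (h1 : x ≤ Real.pi / 6) :
    0 ≤ 6 * (x * Real.cos x) - √3 * Real.pi * Real.sin x := by
  have hpi := Real.pi_pos
  have h3 : √3 * √3 = 3 := Real.mul_self_sqrt (by norm_num)
  have hs0 : 0 ≤ √3 := Real.sqrt_nonneg 3
  have hs2 : √3 ≤ 2 := by nlinarith
  have hpi4 := Real.pi_le_four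
  have hc : ConcaveOn ℝ (Set.Icc 0 (Real.pi / 6))
      (fun x : ℝ => 6 * (x * Real.cos x) - √3 * Real.pi * Real.sin x) := by
    apply concaveOn_of_hasDerivWithinAt2_nonpos (convex_Icc _ _)
      (f' := fun x => 6 * (1 * Real.cos x + x * (-Real.sin x)) - √3 * Real.pi * Real.cos x)
      (f'' := fun x => 6 * (1 * (-Real.sin x) + (1 * (-Real.sin x) + x * (-Real.cos x))) -
        √3 * Real.pi * (-Real.sin x))
    · fun_prop
    · intro y _
      exact ((((hasDerivAt_id y).mul (Real.hasDerivAt_cos y)).const_mul 6).sub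
        ((Real.hasDerivAt_sin y).const_mul (√3 * Real.pi))).hasDerivWithinAt
    · intro y _
      exact (((((Real.hasDerivAt_cos y).const_mul 1).add
        ((hasDerivAt_id y).mul (Real.hasDerivAt_sin y).neg)).const_mul 6).sub
        ((Real.hasDerivAt_cos y).const_mul (√3 * Real.pi))).hasDerivWithinAt
    · intro y hy
      rw [interior_Icc] at hy
      have hy0 := hy.1.le
      have hy1 : y ≤ Real.pi / 2 := by linarith [hy.2]
      have hsin : 0 ≤ Real.sin y := Real.sin_nonneg_of_nonneg_of_le_pi hy0 (by linarith)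
      have hcos : 0 ≤ Real.cos y := Real.cos_nonneg_of_neg_pi_div_two_le_of_le (by linarith) hy1
      have h5 : √3 * Real.pi ≤ 8 := by nlinarith
      have h6 := mul_le_mul_of_nonneg_right h5 hsin
      have h7 := mul_nonneg hy0 hcos
      nlinarith
  have hx : x = (1 - 6 * x / Real.pi) • (0 : ℝ) + (6 * x / Real.pi) • (Real.pi / 6) := by
    simp only [smul_eq_mul, mul_zero, zero_add]
    field_simp
  have hle : 6 * x / Real.pi ≤ 1 := by
    rw [div_le_one hpi]
    linarith
  have m0 : (0 : ℝ) ∈ Set.Icc 0 (Real.pi / 6) := ⟨le_refl 0, by positivity⟩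
  have m1 : Real.pi / 6 ∈ Set.Icc 0 (Real.pi / 6) := ⟨by positivity, le_refl _⟩
  have q0 : 0 ≤ 1 - 6 * x / Real.pi := by linarith
  have q1 : 0 ≤ 6 * x / Real.pi := by positivity
  have h := hc.2 m0 m1 q0 q1 (by ring)
  rw [← hx] at h
  simp only [smul_eq_mul, Real.cos_zero, Real.sin_zero, Real.cos_pi_div_six,
    Real.sin_pi_div_six] at h
  have h8 : 6 * (Real.pi / 6 * (√3 / 2)) - √3 * Real.pi * (1 / 2) = 0 := by ring
  rw [h8] at h
  simpa using h

theorem ineq_b (b a : ℝ) (hb : Real.pi / 3 ≤ b) (hb2 : b ≤ 2 * Real.pi / 3) (ha0 : 0 ≤ a) (ha : -Real.cos b ≤ a)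
    (hA : Real.pi / 2 ≤ b → b - Real.sin b * Real.cos b ≤ Real.pi / 2 - 2 * Real.cos b) :
    3 * √3 * (b + a * Real.sin b) ≤
      Real.pi * (√3 * (3 / 2 + 2 * a - √3 / 2 * (a + Real.cos b) / Real.sin b)) := by
  have hpi := Real.pi_pos
  have hpi3 := Real.pi_gt_three
  have h3 : √3 * √3 = 3 := Real.mul_self_sqrt (by norm_num)
  have hs0 : 0 ≤ √3 := Real.sqrt_nonneg 3
  have hs2 : √3 ≤ 9 / 5 := by nlinarith
  have hs1 : 1 ≤ √3 := by nlinarith
  have hu1 : Real.sin b ≤ 1 := Real.sin_le_one b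
  have hu : √3 / 2 ≤ Real.sin b := by
    rcases le_total b (Real.pi / 2) with h | h
    · rw [← Real.sin_pi_div_three]
      exact Real.sin_le_sin_of_le_of_le_pi_div_two (by linarith) h hb
    · rw [← Real.sin_pi_div_three, ← Real.sin_pi_sub b]
      exact Real.sin_le_sin_of_le_of_le_pi_div_two (by linarith) (by linarith) (by linarith)
  have hu0 : 0 < Real.sin b := by linarith
  set u := Real.sin b with hudef
  set c := Real.cos b with hcdef
  have hκ : 0 ≤ 2 * Real.pi - √3 / 2 * Real.pi / u - 3 * u := by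
    have e : 2 * Real.pi - √3 / 2 * Real.pi / u - 3 * u =
        (2 * Real.pi * u - √3 / 2 * Real.pi - 3 * u ^ 2) / u := by
      field_simp
    rw [e]
    apply div_nonneg _ hu0.le
    have h4 : 0 ≤ (u - √3 / 2) * (1 - u) := mul_nonneg (by linarith) (by linarith)
    have h5 : 0 ≤ (u - √3 / 2) * (2 * Real.pi - 3 - 3 * √3 / 2) :=
      mul_nonneg (by linarith) (by linarith)
    have h6 : 0 ≤ √3 / 2 * (Real.pi - 3 * √3 / 2) := mul_nonneg (by linarith) (by linarith)
    nlinarith
  have E : 3 * (b + a * u) ≤ Real.pi * (3 / 2 + 2 * a - √3 / 2 * (a + c) / u) := by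
    have e : Real.pi * (3 / 2 + 2 * a - √3 / 2 * (a + c) / u) - 3 * (b + a * u) =
        (Real.pi * (3 / 2) - √3 / 2 * Real.pi * c / u - 3 * b) +
          a * (2 * Real.pi - √3 / 2 * Real.pi / u - 3 * u) := by ring
    rcases le_total b (Real.pi / 2) with h | h
    · have h4 := IneqB_g (x := Real.pi / 2 - b) (by linarith) (by linarith)
      rw [Real.cos_pi_div_two_sub, Real.sin_pi_div_two_sub] at h4
      have h5 : Real.pi * (3 / 2) - √3 / 2 * Real.pi * c / u - 3 * b =
          (6 * ((Real.pi / 2 - b) * u) - √3 * Real.pi * c) / (2 * u) := by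
        field_simp
        ring
      have h6 : 0 ≤ Real.pi * (3 / 2) - √3 / 2 * Real.pi * c / u - 3 * b := by
        rw [h5]
        exact div_nonneg h4 (by linarith)
      have h7 := mul_nonneg ha0 hκ
      linarith
    · have h4 := hA h
      have h5 : 0 ≤ (a + c) * (2 * Real.pi - √3 / 2 * Real.pi / u - 3 * u) :=
        mul_nonneg (by linarith) hκ
      have hc0 : c ≤ 0 := Real.cos_nonpos_of_pi_div_two_le_of_le h (by linarith)
      have h6 : 0 ≤ (-c) * (Real.pi - 3) := mul_nonneg (by linarith) (by linarith)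
      have h7 : (Real.pi * (3 / 2) - √3 / 2 * Real.pi * c / u - 3 * b) +
          a * (2 * Real.pi - √3 / 2 * Real.pi / u - 3 * u) =
          (a + c) * (2 * Real.pi - √3 / 2 * Real.pi / u - 3 * u) +
          (Real.pi * (3 / 2) - 3 * b - c * (2 * Real.pi - 3 * u)) := by ring
      have h8 : 0 ≤ Real.pi * (3 / 2) - 3 * b - c * (2 * Real.pi - 3 * u) := by
        nlinarith
      linarith
  have h9 := mul_le_mul_of_nonneg_left E hs0
  calc 3 * √3 * (b + a * u) = √3 * (3 * (b + a * u)) := by ring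
    _ ≤ √3 * (Real.pi * (3 / 2 + 2 * a - √3 / 2 * (a + c) / u)) := h9
    _ = Real.pi * (√3 * (3 / 2 + 2 * a - √3 / 2 * (a + c) / u)) := by ring

end Pool.Agent.MP49888f.ES2
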