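import Mathlib

/-! MP_49888f_co, board ES2: inequalities for arcs above 240 degrees. -/

set_option autoImplicit false

namespace Pool.Agent.MP49888f.ES2

private theorem close_c (X u Q W : ℝ) (hu : 0 < u) (h1 : X * u ≤ Real.pi * Q)
    (h2 : 3 * √3 * Q ≤ W * u) : 3 * √3 * X ≤ Real.pi * W := by
  have h3 : 0 ≤ 3 * √3 := by positivity
  have h4 : 3 * √3 * X * u ≤ Real.pi * W * u := by
    calc 3 * √3 * X * u = 3 * √3 * (X * u) := by ring
      _ ≤ 3 * √3 * (Real.pi * Q) := mul_le_mul_of_nonneg_left h1 h3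
      _ = Real.pi * (3 * √3 * Q) := by ring
      _ ≤ Real.pi * (W * u) := mul_le_mul_of_nonneg_left h2 Real.pi_pos.le
      _ = Real.pi * W * u := by ring
  exact le_of_mul_le_mul_right h4 hu

private theorem scale_c (Q R : ℝ) (hR : 0 ≤ R) (h : Q ≤ R) : 3 * √3 * Q ≤ 5.1962 * R := by
  have h3 : √3 < 1.73206 := by
    rw [Real.sqrt_lt' (by norm_num)]
    norm_num
  have h0 : 0 ≤ √3 := Real.sqrt_nonneg 3
  have h4 : 3 * √3 * Q ≤ 3 * √3 * R := mul_le_mul_of_nonneg_left h (by positivity)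
  have h5 : 3 * √3 * R ≤ 5.1962 * R := mul_le_mul_of_nonneg_right (by linarith) hR
  linarith

private theorem poly_b (d s : ℝ) (hds : d ^ 2 + s ^ 2 = 1) (h1 : 3 / 5 ≤ d) (h2 : d ≤ 4 / 5)
    (hs : 3 / 5 ≤ s) (hs2 : s ≤ 4 / 5) :
    0 ≤ 1.856195 + 1.41422 * d - d * s - 2 * s ∧
    5.1962 * (1.856195 + 1.41422 * d - d * s - 2 * s) ≤
      16 / 5 * (d + 4 / 5) * (3.141592 - 3 * s) := by
  have hp2 : (d + s) ^ 2 ≤ 2 := by nlinarith [sq_nonneg (d - s)]
  have hp : d + s ≤ 1.41422 := by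
    by_contra h
    push Not at h
    nlinarith
  have hq : 0 ≤ (d + s) * (1.41422 - (d + s)) := mul_nonneg (by linarith) (by linarith)
  constructor
  · nlinarith [mul_nonneg (sub_nonneg.2 h2) (sub_nonneg.2 hs2)]
  · nlinarith

private theorem poly_c (d s : ℝ) (hds : d ^ 2 + s ^ 2 = 1) (h1 : 4 / 5 ≤ d) (h2 : d ≤ 17 / 20)
    (hs : 0.52 ≤ s) (hs2 : s ≤ 3 / 5) :
    0 ≤ 2.18499 + d - d * s - 2 * s ∧
    5.1962 * (2.18499 + d - d * s - 2 * s) ≤ 128 / 25 * (3.141592 - 3 * s) := by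
  have ht : 0.85 * d + 0.52678 * s ≤ 1 := by
    nlinarith [sq_nonneg (d - 0.85), sq_nonneg (s - 0.52678)]
  constructor
  · nlinarith
  · nlinarith [mul_nonneg (sub_nonneg.2 ht) (show (0:ℝ) ≤ 4.9676 - 5.1962 * d + 0.01 by nlinarith),
      mul_nonneg (sub_nonneg.2 h1) (sub_nonneg.2 h2)]

private theorem poly_d (d s : ℝ) (h1 : 17 / 20 ≤ d) (h2 : d ≤ 0.86603)
    (hs : 0.49 ≤ s) (hs2 : s ≤ 0.5268) :
    0 ≤ 2.18499 + d - d * s - 2 * s ∧
    5.1962 * (2.18499 + d - d * s - 2 * s) ≤ 3 * (d + 0.866025) * (3.141592 - 3 * s) := by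
  constructor
  · nlinarith
  · nlinarith [mul_nonneg (sub_nonneg.2 h1) (show (0:ℝ) ≤ 4.2286 - 3.8038 * s by nlinarith)]

private theorem up_c (d s c e : ℝ) (hds : d ^ 2 + s ^ 2 = 1) (hc : 0 ≤ c) (hcd : c ≤ d)
    (he : 0 ≤ e) (hce : 1 - c ^ 2 ≤ e ^ 2) : s ≤ e := by
  by_contra h
  push Not at h
  have h1 : e ^ 2 < s ^ 2 := by nlinarith
  have h2 : c ^ 2 ≤ d ^ 2 := by nlinarith
  linarith

private theorem lo_c (d s c e : ℝ) (hds : d ^ 2 + s ^ 2 = 1) (hd : 0 ≤ d) (hdc : d ≤ c)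
    (hs : 0 < s) (hce : e ^ 2 ≤ 1 - c ^ 2) : e ≤ s := by
  by_contra h
  push Not at h
  have h1 : s ^ 2 < e ^ 2 := by nlinarith
  have h2 : d ^ 2 ≤ c ^ 2 := by nlinarith
  linarith

private theorem low_c (b d s a : ℝ) (hd : 1 / 2 ≤ d) (hda : d ≤ a) (hu : 0 < Real.pi - 3 * s)
    (hT2 : b + d * s ≤ 3 * Real.pi / 4 - 1 / 2 + √2 * d) (h35 : d ≤ 3 / 5) :
    3 * (b + a * s) ≤ Real.pi * (2 + a) := by
  have hp1 : (3.141592 : ℝ) < Real.pi := Real.pi_gt_d6
  have hp2 : Real.pi < (3.141593 : ℝ) := Real.pi_lt_d6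
  have r2 : √2 < 1.41422 := by
    rw [Real.sqrt_lt' (by norm_num)]
    norm_num
  have h1 : d * (Real.pi - 3 * s) ≤ a * (Real.pi - 3 * s) := mul_le_mul_of_nonneg_right hda hu.le
  have h2 : √2 * d ≤ 1.41422 * d := mul_le_mul_of_nonneg_right r2.le (by linarith)
  have h3 : 3.141592 * d ≤ Real.pi * d := mul_le_mul_of_nonneg_right hp1.le (by linarith)
  linarith

theorem ineq_c (b d s a : ℝ) (hds : d ^ 2 + s ^ 2 = 1) (hs : 0 < s) (hd : 1 / 2 ≤ d) (hda : d ≤ a)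
    (hbs : b + s ≤ Real.pi) (hT2 : b + d * s ≤ 3 * Real.pi / 4 - 1 / 2 + √2 * d)
    (hT3 : b + d * s ≤ 5 * Real.pi / 6 - √3 / 4 + d) :
    3 * (b + a * s) ≤ Real.pi * (2 + a) ∨
    (d ≤ 4 / 5 ∧ 3 * √3 * (b + a * s) ≤ Real.pi * (16 / 5 * (d + 4 / 5))) ∨
    (4 / 5 ≤ d ∧ 3 * √3 * (b + a * s) ≤ Real.pi * (128 / 25)) ∨
    (d ≤ √3 / 2 ∧ 3 * √3 * (b + a * s) ≤ Real.pi * (3 * (d + √3 / 2))) ∨
    (√3 / 2 ≤ d ∧ b + a * s ≤ Real.pi) := by
  have hp1 : (3.141592 : ℝ) < Real.pi := Real.pi_gt_d6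
  have hp2 : Real.pi < (3.141593 : ℝ) := Real.pi_lt_d6
  have r2 : √2 < 1.41422 := by
    rw [Real.sqrt_lt' (by norm_num)]
    norm_num
  have r3 : √3 < 1.73206 := by
    rw [Real.sqrt_lt' (by norm_num)]
    norm_num
  have l3 : 1.73205 < √3 := by
    rw [Real.lt_sqrt (by norm_num)]
    norm_num
  have hs34 : s ≤ 0.86603 := up_c d s (1 / 2) _ hds (by norm_num) hd (by norm_num) (by norm_num)
  by_cases hA : 3 * (b + a * s) ≤ Real.pi * (2 + a)
  · exact Or.inl hA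
  right
  have hu : 0 < Real.pi - 3 * s := by linarith
  -- case d ≤ 3/5 is impossible
  have hd35 : 3 / 5 < d := by
    by_contra hcon
    push Not at hcon
    exact hA (low_c b d s a hd hda hu hT2 hcon)
  have hs45 : s ≤ 4 / 5 :=
    up_c d s (3 / 5) _ hds (by norm_num) hd35.le (by norm_num) (by norm_num)
  have hau : a * (Real.pi - 3 * s) < 3 * b - 2 * Real.pi := by
    push Not at hA
    linarith
  have hX : (b + a * s) * (Real.pi - 3 * s) ≤ Real.pi * (b - 2 * s) := by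
    have h1 : s * (a * (Real.pi - 3 * s)) ≤ s * (3 * b - 2 * Real.pi) :=
      mul_le_mul_of_nonneg_left hau.le hs.le
    linarith
  rcases le_or_gt d (4 / 5) with h45 | h45
  · left
    refine ⟨h45, ?_⟩
    have hs35 : 3 / 5 ≤ s := lo_c d s (4 / 5) _ hds (by linarith) h45 hs (by norm_num)
    obtain ⟨g1, g2⟩ := poly_b d s hds hd35.le h45 hs35 hs45
    have h2 : √2 * d ≤ 1.41422 * d := mul_le_mul_of_nonneg_right r2.le (by linarith)
    have hR : b - 2 * s ≤ 1.856195 + 1.41422 * d - d * s - 2 * s := by linarith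
    apply close_c _ _ _ _ hu hX
    calc 3 * √3 * (b - 2 * s) ≤ 5.1962 * (1.856195 + 1.41422 * d - d * s - 2 * s) :=
          scale_c _ _ g1 hR
      _ ≤ 16 / 5 * (d + 4 / 5) * (3.141592 - 3 * s) := g2
      _ ≤ 16 / 5 * (d + 4 / 5) * (Real.pi - 3 * s) :=
          mul_le_mul_of_nonneg_left (by linarith) (by linarith)
  · right
    have hR : b - 2 * s ≤ 2.18499 + d - d * s - 2 * s := by linarith
    have hs35 : s ≤ 3 / 5 :=
      up_c d s (4 / 5) _ hds (by norm_num) h45.le (by norm_num) (by norm_num)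
    rcases le_or_gt d (17 / 20) with h17 | h17
    · left
      refine ⟨h45.le, ?_⟩
      have hs52 : 0.52 ≤ s := lo_c d s (17 / 20) _ hds (by linarith) h17 hs (by norm_num)
      obtain ⟨g1, g2⟩ := poly_c d s hds h45.le h17 hs52 hs35
      apply close_c _ _ _ _ hu hX
      calc 3 * √3 * (b - 2 * s) ≤ 5.1962 * (2.18499 + d - d * s - 2 * s) := scale_c _ _ g1 hR
        _ ≤ 128 / 25 * (3.141592 - 3 * s) := g2
        _ ≤ 128 / 25 * (Real.pi - 3 * s) :=
            mul_le_mul_of_nonneg_left (by linarith) (by norm_num)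
    · right
      rcases le_or_gt d (√3 / 2) with h3 | h3
      · left
        refine ⟨h3, ?_⟩
        have hd866 : d ≤ 0.86603 := by linarith
        have hs52 : s ≤ 0.5268 :=
          up_c d s (17 / 20) _ hds (by norm_num) h17.le (by norm_num) (by norm_num)
        have hs49 : 0.49 ≤ s := lo_c d s 0.86603 _ hds (by linarith) hd866 hs (by norm_num)
        obtain ⟨g1, g2⟩ := poly_d d s h17.le hd866 hs49 hs52
        apply close_c _ _ _ _ hu hX
        calc 3 * √3 * (b - 2 * s) ≤ 5.1962 * (2.18499 + d - d * s - 2 * s) := scale_c _ _ g1 hR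
          _ ≤ 3 * (d + 0.866025) * (3.141592 - 3 * s) := g2
          _ ≤ 3 * (d + 0.866025) * (Real.pi - 3 * s) :=
              mul_le_mul_of_nonneg_left (by linarith) (by linarith)
          _ ≤ 3 * (d + √3 / 2) * (Real.pi - 3 * s) :=
              mul_le_mul_of_nonneg_right (by linarith) hu.le
      · right
        refine ⟨h3.le, ?_⟩
        have ha1 : a < 1 := by
          by_contra hcon
          push Not at hcon
          have : 1 * (Real.pi - 3 * s) ≤ a * (Real.pi - 3 * s) :=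
            mul_le_mul_of_nonneg_right hcon hu.le
          linarith
        have : a * s ≤ 1 * s := mul_le_mul_of_nonneg_right ha1.le hs.le
        linarith

end Pool.Agent.MP49888f.ES2
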