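import Mathlib

/-! MP_49888f_co, board ES2: area of the convex hull of a circular segment and a point. -/

set_option autoImplicit false

namespace Pool.Agent.MP49888f.ES2

open MeasureTheory Set

theorem vol_seg_convex (d : ℝ) : Convex ℝ {p : ℝ × ℝ | p.1 ^ 2 + p.2 ^ 2 ≤ 1 ∧ p.2 ≤ d} := by
  rintro ⟨x1, y1⟩ ⟨h1, h1'⟩ ⟨x2, y2⟩ ⟨h2, h2'⟩ u v hu hv huv
  simp only [mem_ofPred_eq] at h1 h1' h2 h2' ⊢
  simp only [Prod.fst_add, Prod.snd_add, Prod.smul_fst, Prod.smul_snd, smul_eq_mul]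
  obtain rfl : v = 1 - u := by linarith
  refine ⟨?_, by nlinarith⟩
  have h3 : x1 * x2 + y1 * y2 ≤ 1 := by nlinarith [sq_nonneg (x1 - x2), sq_nonneg (y1 - y2)]
  nlinarith [mul_nonneg hu hv, mul_nonneg (mul_nonneg hu hv) (sub_nonneg.2 h3),
    mul_nonneg (sq_nonneg u) (sub_nonneg.2 h1), mul_nonneg (sq_nonneg (1 - u)) (sub_nonneg.2 h2)]

theorem vol_tri (s d a : ℝ) (hs : 0 ≤ s) (hda : d < a) :
    volume {p : ℝ × ℝ | d ≤ p.2 ∧ p.2 ≤ a ∧ |p.1| * (a - d) ≤ s * (a - p.2)} ≤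
      ENNReal.ofReal (s * (a - d)) := by
  have had : 0 < a - d := sub_pos.2 hda
  have hcl : IsClosed {p : ℝ × ℝ | d ≤ p.2 ∧ p.2 ≤ a ∧ |p.1| * (a - d) ≤ s * (a - p.2)} := by
    have hA : IsClosed {p : ℝ × ℝ | d ≤ p.2} := isClosed_le continuous_const continuous_snd
    have hB : IsClosed {p : ℝ × ℝ | p.2 ≤ a} := isClosed_le continuous_snd continuous_const
    have hC : IsClosed {p : ℝ × ℝ | |p.1| * (a - d) ≤ s * (a - p.2)} :=
      isClosed_le (by fun_prop) (by fun_prop)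
    exact hA.inter (hB.inter hC)
  have hm := hcl.measurableSet
  rw [Measure.volume_eq_prod, Measure.prod_apply_symm hm]
  have h1 : ∀ y : ℝ, volume ((fun x : ℝ => (x, y)) ⁻¹'
      {p : ℝ × ℝ | d ≤ p.2 ∧ p.2 ≤ a ∧ |p.1| * (a - d) ≤ s * (a - p.2)}) ≤
      (Icc d a).indicator (fun y => ENNReal.ofReal (2 * s / (a - d) * (a - y))) y := by
    intro y
    by_cases hy : y ∈ Icc d a
    · rw [indicator_of_mem hy]
      have h2 : ((fun x : ℝ => (x, y)) ⁻¹'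
          {p : ℝ × ℝ | d ≤ p.2 ∧ p.2 ≤ a ∧ |p.1| * (a - d) ≤ s * (a - p.2)}) ⊆
          Icc (-(s * (a - y) / (a - d))) (s * (a - y) / (a - d)) := by
        rintro x ⟨-, -, hx⟩
        simp only at hx
        rw [mem_Icc, ← abs_le, le_div_iff₀ had]
        exact hx
      refine (measure_mono h2).trans ?_
      rw [Real.volume_Icc]
      apply le_of_eq
      congr 1
      field_simp
      ring
    · rw [indicator_of_notMem hy]
      have h2 : ((fun x : ℝ => (x, y)) ⁻¹'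
          {p : ℝ × ℝ | d ≤ p.2 ∧ p.2 ≤ a ∧ |p.1| * (a - d) ≤ s * (a - p.2)}) = ∅ := by
        ext x
        simp only [mem_preimage, mem_ofPred_eq, mem_empty_iff_false, iff_false]
        rintro ⟨h3, h4, -⟩
        exact hy ⟨h3, h4⟩
      rw [h2, measure_empty]
  refine (lintegral_mono h1).trans ?_
  rw [lintegral_indicator measurableSet_Icc]
  have hcont : Continuous fun y : ℝ => 2 * s / (a - d) * (a - y) :=
    continuous_const.mul (continuous_const.sub continuous_id)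
  rw [← ofReal_integral_eq_lintegral_ofReal]
  · apply ENNReal.ofReal_le_ofReal
    rw [integral_Icc_eq_integral_Ioc, ← intervalIntegral.integral_of_le hda.le,
      intervalIntegral.integral_const_mul,
      intervalIntegral.integral_comp_sub_left (fun x => x) a, integral_id]
    apply le_of_eq
    field_simp
    ring
  · exact (hcont.continuousOn).integrableOn_compact isCompact_Icc
  · refine (ae_restrict_mem measurableSet_Icc).mono fun y hy => ?_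
    exact mul_nonneg (div_nonneg (by positivity) had.le) (sub_nonneg.2 hy.2)

theorem vol_sub (d a : ℝ) (h0 : -1 < d) (h1 : d < 1) (hda : d ≤ a) (had : a * d ≤ 1) :
    convexHull ℝ ({p : ℝ × ℝ | p.1 ^ 2 + p.2 ^ 2 ≤ 1 ∧ p.2 ≤ d} ∪ {((0 : ℝ), a)}) ⊆
      {p : ℝ × ℝ | p.1 ^ 2 + p.2 ^ 2 ≤ 1 ∧ p.2 ≤ d} ∪
        {p : ℝ × ℝ | d ≤ p.2 ∧ p.2 ≤ a ∧ |p.1| * (a - d) ≤ √(1 - d ^ 2) * (a - p.2)} := by
  have hs2 : 0 < 1 - d ^ 2 := by nlinarith
  have hs : 0 < √(1 - d ^ 2) := Real.sqrt_pos.2 hs2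
  have hss : √(1 - d ^ 2) * √(1 - d ^ 2) = 1 - d ^ 2 := Real.mul_self_sqrt hs2.le
  have hne : {p : ℝ × ℝ | p.1 ^ 2 + p.2 ^ 2 ≤ 1 ∧ p.2 ≤ d}.Nonempty :=
    ⟨(0, -1), by norm_num, h0.le⟩
  rw [union_singleton, convexHull_insert hne, (vol_seg_convex d).convexHull_eq]
  intro z hz
  rw [mem_convexJoin] at hz
  obtain ⟨p, hp, ⟨x, y⟩, ⟨hq1, hq2⟩, hz⟩ := hz
  rw [mem_singleton_iff] at hp
  subst hp
  obtain ⟨l, m, hl, hm, hlm, rfl⟩ := hz
  simp only at hq1 hq2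
  obtain rfl : m = 1 - l := by linarith
  simp only [Prod.smul_mk, Prod.mk_add_mk, smul_eq_mul, mul_zero, zero_add, mem_union,
    mem_ofPred_eq]
  by_cases hY : l * a + (1 - l) * y ≤ d
  · left
    refine ⟨?_, hY⟩
    rcases le_or_gt a 1 with ha | ha
    · have ha2 : a ^ 2 ≤ 1 := by nlinarith
      have h3 : a * y ≤ 1 := by nlinarith [sq_nonneg (a - y), sq_nonneg x]
      nlinarith [mul_nonneg hl hm, mul_nonneg (mul_nonneg hl hm) (sub_nonneg.2 h3),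
        mul_nonneg (sq_nonneg l) (sub_nonneg.2 ha2),
        mul_nonneg (sq_nonneg (1 - l)) (sub_nonneg.2 hq1)]
    · have h3 : ((1 - l) * x) ^ 2 + ((1 - l) * y) ^ 2 ≤ (1 - l) ^ 2 := by
        nlinarith [mul_nonneg (sq_nonneg (1 - l)) (sub_nonneg.2 hq1)]
      have h4 : a * (l * a + (1 - l) * y) ≤ 1 := by nlinarith
      have h5 : 0 ≤ l * (1 - a * (l * a + (1 - l) * y)) := mul_nonneg hl (sub_nonneg.2 h4)
      have h6 : 0 ≤ l * l * (a ^ 2 - 1) := mul_nonneg (mul_nonneg hl hl) (by nlinarith)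
      nlinarith
  · right
    rw [not_le] at hY
    have h3 : |x| * √(1 - d ^ 2) + y * d ≤ 1 := by
      nlinarith [sq_nonneg (|x| - √(1 - d ^ 2)), sq_nonneg (y - d), sq_abs x]
    have h4 : |x| * (a - d) ≤ √(1 - d ^ 2) * (a - y) := by
      have h5 : 0 ≤ a - d := sub_nonneg.2 hda
      have h6 : (y - d) * (1 - a * d) ≤ 0 :=
        mul_nonpos_of_nonpos_of_nonneg (sub_nonpos.2 hq2) (sub_nonneg.2 had)
      have h7 : √(1 - d ^ 2) * (|x| * (a - d)) ≤ √(1 - d ^ 2) * (√(1 - d ^ 2) * (a - y)) := by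
        rw [← mul_assoc (√(1 - d ^ 2)) (√(1 - d ^ 2)), hss]
        nlinarith [mul_nonneg (sub_nonneg.2 h3) h5]
      exact le_of_mul_le_mul_left h7 hs
    refine ⟨hY.le, by nlinarith, ?_⟩
    rw [abs_mul, abs_of_nonneg hm]
    have h8 := mul_le_mul_of_nonneg_left h4 hm
    nlinarith

theorem vol_le (d a : ℝ) (h0 : -1 < d) (h1 : d < 1) (hda : d ≤ a) (had : a * d ≤ 1) :
    volume (convexHull ℝ ({p : ℝ × ℝ | p.1 ^ 2 + p.2 ^ 2 ≤ 1 ∧ p.2 ≤ d} ∪ {((0 : ℝ), a)})) ≤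
      volume {p : ℝ × ℝ | p.1 ^ 2 + p.2 ^ 2 ≤ 1 ∧ p.2 ≤ d} + ENNReal.ofReal (√(1 - d ^ 2) * (a - d)) := by
  rcases hda.eq_or_lt with rfl | hlt
  · have hp : ((0 : ℝ), d) ∈ {p : ℝ × ℝ | p.1 ^ 2 + p.2 ^ 2 ≤ 1 ∧ p.2 ≤ d} := by
      refine ⟨?_, le_rfl⟩
      simp only
      nlinarith
    rw [union_eq_self_of_subset_right (singleton_subset_iff.2 hp), (vol_seg_convex d).convexHull_eq]
    exact le_self_add
  · refine (measure_mono (vol_sub d a h0 h1 hda had)).trans ((measure_union_le _ _).trans ?_)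
    gcongr
    exact vol_tri _ d a (Real.sqrt_nonneg _) hlt

end Pool.Agent.MP49888f.ES2
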