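import Pool.Agent.Lib.MP_49888f_co.ES.Seg
import Pool.Agent.Lib.MP_49888f_co.ES2.Vol
import Pool.Agent.Lib.MP_49888f_co.ES2.Hull
import Pool.Agent.Lib.MP_49888f_co.ES2.IneqA
import Pool.Agent.Lib.MP_49888f_co.ES2.IneqB
import Pool.Agent.Lib.MP_49888f_co.ES2.IneqC

/-! MP_49888f_co, convex hull of a circular segment and a point of its axis: the hexagons (helper47). -/

set_option autoImplicit false

namespace Pool.Agent.MP49888f.ES2

open MeasureTheory Set Pool.Agent.MP49888f.CV Pool.Agent.MP49888f.ES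

/-- convex hull of the segment below height `d` and the point `(0,a)` -/
def Cone (d a : ℝ) : Set (ℝ × ℝ) := convexHull ℝ (Seg d ∪ {((0 : ℝ), a)})

theorem cone_convex (d a : ℝ) : Convex ℝ (Cone d a) := convex_convexHull ℝ _

theorem cone_compact (d a : ℝ) (h0 : -1 < d) : IsCompact (Cone d a) := by
  have hne : (Seg d).Nonempty := ⟨((0 : ℝ), -1), by
    show (0 : ℝ) ^ 2 + (-1) ^ 2 ≤ 1
    norm_num, h0.le⟩
  have hE : Cone d a = (fun q : (ℝ × ℝ) × ℝ => (1 - q.2) • q.1 + q.2 • ((0 : ℝ), a)) ''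
      (Seg d ×ˢ Icc (0 : ℝ) 1) := by
    unfold Cone
    rw [(seg_convex d).convexHull_union (convex_singleton _) hne (singleton_nonempty _)]
    ext z
    rw [mem_convexJoin]
    constructor
    · rintro ⟨x, hx, y, hy, hz⟩
      rw [mem_singleton_iff] at hy
      subst hy
      rw [segment_eq_image] at hz
      obtain ⟨θ, hθ, rfl⟩ := hz
      exact ⟨(x, θ), ⟨hx, hθ⟩, rfl⟩
    · rintro ⟨⟨x, θ⟩, ⟨hx, hθ⟩, rfl⟩
      refine ⟨x, hx, _, rfl, ?_⟩
      rw [segment_eq_image]
      exact ⟨θ, hθ, rfl⟩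
  rw [hE]
  exact ((seg_compact d).prod isCompact_Icc).image (by fun_prop)

theorem seg_sub (d a : ℝ) : Seg d ⊆ Cone d a := subset_union_left.trans (subset_convexHull ℝ _)

theorem apex_mem (d a : ℝ) : ((0 : ℝ), a) ∈ Cone d a :=
  subset_convexHull ℝ _ (Or.inr rfl)

theorem mem_seg {d a x y : ℝ} (h : x ^ 2 + y ^ 2 ≤ 1) (h' : y ≤ d) : (x, y) ∈ Cone d a :=
  seg_sub d a ⟨h, h'⟩

theorem mem_tri {d a s x y : ℝ} (hs : s ^ 2 + d ^ 2 = 1) (hs0 : 0 < s) (hx : 0 ≤ x) (hxs : x ≤ s)
    (hy : y = a - x * (a - d) / s) : (x, y) ∈ Cone d a ∧ (-x, y) ∈ Cone d a := by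
  have h1 : 0 ≤ x / s := div_nonneg hx hs0.le
  have h2 : 0 ≤ 1 - x / s := by
    rw [sub_nonneg, div_le_one hs0]
    exact hxs
  have m1 : (s, d) ∈ Cone d a := mem_seg hs.le le_rfl
  have m2 : (-s, d) ∈ Cone d a := mem_seg (by rw [neg_sq]; exact hs.le) le_rfl
  refine ⟨?_, ?_⟩
  · have := cone_convex d a m1 (apex_mem d a) h1 h2 (by ring)
    have e : (x / s) • ((s : ℝ), d) + (1 - x / s) • ((0 : ℝ), a) = (x, y) := by
      rw [hy]
      ext
      · show x / s * s + (1 - x / s) * 0 = x
        field_simp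
        ring
      · show x / s * d + (1 - x / s) * a = a - x * (a - d) / s
        ring
    rwa [e] at this
  · have := cone_convex d a m2 (apex_mem d a) h1 h2 (by ring)
    have e : (x / s) • ((-s : ℝ), d) + (1 - x / s) • ((0 : ℝ), a) = (-x, y) := by
      rw [hy]
      ext
      · show x / s * (-s) + (1 - x / s) * 0 = -x
        field_simp
        ring
      · show x / s * d + (1 - x / s) * a = a - x * (a - d) / s
        ring
    rwa [e] at this

theorem mem_cg {S : Set (ℝ × ℝ)} {x y x' y' : ℝ} (h : (x', y') ∈ S) (hx : x = x') (hy : y = y') :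
    (x, y) ∈ S := by rw [hx, hy]; exact h

theorem cone_vol (b a : ℝ) (hb : 0 < b) (hb1 : b < Real.pi) (ha : -Real.cos b ≤ a)
    (had : a * (-Real.cos b) ≤ 1) :
    (volume (Cone (-Real.cos b) a)).toReal ≤ b + a * Real.sin b := by
  have hs : 0 < Real.sin b := Real.sin_pos_of_pos_of_lt_pi hb hb1
  have h1 := Real.sin_sq_add_cos_sq b
  have hd0 : -1 < -Real.cos b := by nlinarith
  have hd1 : -Real.cos b < 1 := by nlinarith
  have hv := vol_le (-Real.cos b) a hd0 hd1 ha had
  have hsq : √(1 - (-Real.cos b) ^ 2) = Real.sin b := by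
    rw [show 1 - (-Real.cos b) ^ 2 = Real.sin b ^ 2 by rw [neg_sq]; linarith, Real.sqrt_sq hs.le]
  rw [hsq] at hv
  have hseg : (volume (Seg (-Real.cos b))).toReal = b - Real.sin b * Real.cos b := by
    rw [vol_seg _ hd0.le hd1.le]
    exact integral_cos b hb.le hb1.le
  have hfin : volume (Seg (-Real.cos b)) ≠ ⊤ := (seg_compact _).measure_lt_top.ne
  have hv' : volume (Cone (-Real.cos b) a) ≤
      volume (Seg (-Real.cos b)) + ENNReal.ofReal (Real.sin b * (a - -Real.cos b)) := hv
  have h3 := ENNReal.toReal_mono (ENNReal.add_ne_top.mpr ⟨hfin, ENNReal.ofReal_ne_top⟩) hv'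
  rw [ENNReal.toReal_add hfin ENNReal.ofReal_ne_top, hseg,
    ENNReal.toReal_ofReal (mul_nonneg hs.le (by linarith))] at h3
  nlinarith [h3]

theorem I_sqrt2 : ∫ y in (-1 : ℝ)..(√2 / 2), 2 * √(1 - y ^ 2) = 3 * Real.pi / 4 + 1 / 2 := by
  have h := integral_cos (Real.pi - Real.pi / 4) (by linarith [Real.pi_pos]) (by linarith [Real.pi_pos])
  rw [Real.cos_pi_sub, Real.sin_pi_sub, Real.cos_pi_div_four, Real.sin_pi_div_four, neg_neg] at h
  rw [h]
  have h2 : √2 * √2 = 2 := Real.mul_self_sqrt (by norm_num)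
  nlinarith [h2]

theorem cone_pos (c u w : E2) (hD : 0 < cr u w) (b a : ℝ) (hb : 0 < b) (hb1 : b < Real.pi)
    (ha : -Real.cos b ≤ a) (had : a * (-Real.cos b) ≤ 1) :
    CovLE ((fun p : ℝ × ℝ => c + fr u w p) '' Cone (-Real.cos b) a) (2 * Real.pi / √27) := by
  have hK := cone_vol b a hb hb1 ha had
  have hs : 0 < Real.sin b := Real.sin_pos_of_pos_of_lt_pi hb hb1
  have hsc := Real.sin_sq_add_cos_sq b
  have hd0 : -1 < -Real.cos b := by nlinarith
  have hd1 : -Real.cos b < 1 := by nlinarith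
  have hs3 : √3 * √3 = 3 := Real.mul_self_sqrt (by norm_num)
  have hs0 : (0 : ℝ) < √3 := by positivity
  have hs1 : 1.73 < √3 := by
    rw [show (1.73 : ℝ) = √(1.73 ^ 2) by rw [Real.sqrt_sq (by norm_num)]]
    exact Real.sqrt_lt_sqrt (by norm_num) (by norm_num)
  have hs2 : √3 < 1.7321 := by
    rw [show (1.7321 : ℝ) = √(1.7321 ^ 2) by rw [Real.sqrt_sq (by norm_num)]]
    exact Real.sqrt_lt_sqrt (by norm_num) (by norm_num)
  have hpi := Real.pi_gt_d2
  obtain ⟨d, hd⟩ : ∃ d, d = -Real.cos b := ⟨_, rfl⟩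
  obtain ⟨s, hsd⟩ : ∃ s, s = Real.sin b := ⟨_, rfl⟩
  rw [← hd, ← hsd] at hK
  rw [← hd] at ha had hd0 hd1
  rw [← hsd] at hs
  have hcb : Real.cos b = -d := by rw [hd, neg_neg]
  have hds : s ^ 2 + d ^ 2 = 1 := by rw [hd, hsd, neg_sq]; exact hsc
  rw [← hd]
  by_cases cA : b ≤ Real.pi / 2 ∧ (a ≤ 0 ∨ b ≤ Real.pi / 3)
  · obtain ⟨t, hbt⟩ : ∃ t, b = 3 * t := ⟨b / 3, by ring⟩
    have ht0 : 0 < t := by linarith
    have htr := trig (2 * t) (by linarith) (by linarith [cA.1])
    have hin := ineq_a b t a hb cA.1 hbt (by rw [hcb, neg_neg]; exact ha) cA.2 htr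
    rw [hcb, ← hsd] at hin
    have hsint : 0 < Real.sin t := Real.sin_pos_of_pos_of_lt_pi ht0 (by linarith)
    have hsin : Real.sin t ≤ s := by
      rw [hsd]
      exact Real.sin_le_sin_of_le_of_le_pi_div_two (by linarith) (by linarith [cA.1]) (by linarith)
    have hcos : -Real.cos t ≤ d := by
      rw [hd, neg_le_neg_iff]
      exact Real.cos_le_cos_of_nonneg_of_le_pi ht0.le (by linarith) (by linarith)
    have hsct := Real.sin_sq_add_cos_sq t
    obtain ⟨y, hy⟩ : ∃ y, y = a - Real.sin t * (a - d) / s := ⟨_, rfl⟩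
    have hyd : d ≤ y := by
      have h5 : Real.sin t * (a - d) / s ≤ a - d := by
        rw [div_le_iff₀ hs, mul_comm]
        exact mul_le_mul_of_nonneg_left hsin (by linarith)
      linarith
    have mt := mem_tri (a := a) hds hs hsint.le hsin hy
    have hh : 0 ≤ y + Real.cos t := by linarith
    have hin' : 3 * √3 * (b + a * s) ≤ Real.pi * (0 * (0 + d - d)
        - (y + Real.cos t) * (-(2 * Real.sin t) + -s - s)) := by
      have e1 : 0 * (0 + d - d) - (y + Real.cos t) * (-(2 * Real.sin t) + -s - s)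
          = 2 * (Real.sin t + s) * (Real.cos t + a - Real.sin t * (a + -d) / s) := by
        rw [hy, sub_eq_add_neg a d]
        ring
      rw [e1]
      exact hin
    have hN : 0 < 0 * (0 + d - d) - (y + Real.cos t) * (-(2 * Real.sin t) + -s - s) := by
      have hlt : -Real.cos t < d := by
        rw [hd, neg_lt_neg_iff]
        exact Real.cos_lt_cos_of_nonneg_of_le_pi ht0.le (by linarith) (by linarith)
      have : 0 < (y + Real.cos t) * (2 * Real.sin t + 2 * s) :=
        mul_pos (by linarith) (by linarith)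
      nlinarith [this]
    refine hexagon_fr c u w hD (Cone d a) (cone_convex d a) (cone_compact d a hd0)
      (Real.sin t) (-Real.cos t) 0 (y + Real.cos t) (-(2 * Real.sin t)) 0 (-s) d s d _ _
      (mem_seg (by first | linarith | nlinarith) hcos) (mem_cg mt.1 (by ring) (by ring))
      (mem_cg (mem_seg (x := -Real.sin t) (y := -Real.cos t) (by first | linarith | nlinarith) hcos) (by ring) (by ring))
      (mem_cg mt.2 (by ring) (by ring))
      (mem_seg (by rw [neg_sq]; exact hds.le) le_rfl) (mem_seg hds.le le_rfl)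
      ?_ ?_ ?_ hN hK (theta_le hin')
    · nlinarith [mul_nonneg hh hsint.le]
    · nlinarith [mul_nonneg hh hsint.le, mul_nonneg hh (sub_nonneg.mpr hsin)]
    · nlinarith [mul_nonneg hh hsint.le, mul_nonneg hh hs.le]
  by_cases cB : b ≤ 2 * Real.pi / 3
  · have hb3 : Real.pi / 3 ≤ b := by
      by_contra hcon
      push Not at hcon
      exact cA ⟨by linarith, Or.inr hcon.le⟩
    have ha0 : 0 ≤ a := by
      by_cases h2 : b ≤ Real.pi / 2
      · by_contra hcon
        push Not at hcon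
        exact cA ⟨h2, Or.inl hcon.le⟩
      · push Not at h2
        have : Real.cos b ≤ 0 := Real.cos_nonpos_of_pi_div_two_le_of_le h2.le (by linarith)
        rw [hcb] at this
        linarith
    have hA : Real.pi / 2 ≤ b → b - Real.sin b * Real.cos b ≤ Real.pi / 2 - 2 * Real.cos b := by
      intro h2
      have h3 : Real.cos b ≤ 0 := Real.cos_nonpos_of_pi_div_two_le_of_le h2 (by linarith)
      have h4 := integral_tangent 0 (-Real.cos b) le_rfl (by norm_num) (by linarith)
        (by rw [← hd]; exact hd1.le)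
      rw [I_zero, integral_cos b hb.le hb1.le] at h4
      norm_num at h4
      linarith
    have hin := ineq_b b a hb3 cB ha0 (by rw [hcb, neg_neg]; exact ha) hA
    rw [hcb, ← hsd] at hin
    have hd2 : -(1 / 2) ≤ d := by
      have : Real.cos b ≤ Real.cos (Real.pi / 3) :=
        Real.cos_le_cos_of_nonneg_of_le_pi (by positivity) hb1.le hb3
      rw [Real.cos_pi_div_three, hcb] at this
      linarith
    have hss : √3 / 2 ≤ s := by
      rw [hsd]
      by_cases h2 : b ≤ Real.pi / 2
      · rw [← Real.sin_pi_div_three]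
        exact Real.sin_le_sin_of_le_of_le_pi_div_two (by linarith) h2 hb3
      · push Not at h2
        rw [← Real.sin_pi_div_three, ← Real.sin_pi_sub b]
        exact Real.sin_le_sin_of_le_of_le_pi_div_two (by linarith) (by linarith) (by linarith)
    obtain ⟨y, hy⟩ : ∃ y, y = a - √3 / 2 * (a - d) / s := ⟨_, rfl⟩
    have hyd : d ≤ y := by
      have h5 : √3 / 2 * (a - d) / s ≤ a - d := by
        rw [div_le_iff₀ hs, mul_comm]
        exact mul_le_mul_of_nonneg_left hss (by linarith)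
      linarith
    have hya : y ≤ a := by
      have : 0 ≤ √3 / 2 * (a - d) / s := div_nonneg (mul_nonneg (by positivity) (by linarith)) hs.le
      linarith
    have mt := mem_tri (a := a) hds hs (by positivity) hss hy
    have hin' : 3 * √3 * (b + a * s) ≤ Real.pi * (√3 * (y + 1 / 2 + a - -1) - 0 * (0 + 0 - 0)) := by
      have e1 : √3 * (y + 1 / 2 + a - -1) - 0 * (0 + 0 - 0)
          = √3 * (3 / 2 + 2 * a - √3 / 2 * (a + -d) / s) := by
        rw [hy, sub_eq_add_neg a d]
        ring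
      rw [e1]
      exact hin
    refine hexagon_fr c u w hD (Cone d a) (cone_convex d a) (cone_compact d a hd0)
      (-(√3 / 2)) (-(1 / 2)) (√3) 0 0 (y + 1 / 2) 0 a 0 (-1) _ _
      (mem_seg (by first | linarith | nlinarith) hd2)
      (mem_cg (mem_seg (x := √3 / 2) (y := -(1 / 2)) (by first | linarith | nlinarith) hd2) (by ring) (by ring))
      (mem_cg mt.2 (by ring) (by ring)) (mem_cg mt.1 (by ring) (by ring))
      (apex_mem d a) (mem_seg (by norm_num) hd0.le)
      ?_ ?_ ?_ ?_ hK (theta_le hin')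
    · nlinarith [mul_nonneg hs0.le (show 0 ≤ y + 1 / 2 by linarith)]
    · nlinarith [mul_nonneg hs0.le (sub_nonneg.mpr hya)]
    · nlinarith
    · nlinarith [mul_nonneg hs0.le (show 0 ≤ y + 1 / 2 by linarith), mul_nonneg hs0.le ha0]
  push Not at cB
  have hdh : 1 / 2 ≤ d := by
    have : Real.cos b ≤ Real.cos (Real.pi - Real.pi / 3) :=
      Real.cos_le_cos_of_nonneg_of_le_pi (by linarith) hb1.le (by linarith)
    rw [Real.cos_pi_sub, Real.cos_pi_div_three, hcb] at this
    linarith
  have hbs : b + s ≤ Real.pi := by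
    have := Real.sin_le (show 0 ≤ Real.pi - b by linarith)
    rw [Real.sin_pi_sub, ← hsd] at this
    linarith
  have hI := integral_cos b hb.le hb1.le
  rw [← hd, hcb, ← hsd] at hI
  have hT2 : b + d * s ≤ 3 * Real.pi / 4 - 1 / 2 + √2 * d := by
    have h2 : √2 * √2 = 2 := Real.mul_self_sqrt (by norm_num)
    have h20 : (0 : ℝ) < √2 := by positivity
    have h21 : √2 / 2 ≤ 1 := by nlinarith
    have h4 := integral_tangent (√2 / 2) d (by positivity) h21 (by linarith) hd1.le
    have e1 : 2 * √(1 - (√2 / 2) ^ 2) = √2 := by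
      rw [show (1 - (√2 / 2) ^ 2 : ℝ) = (√2 / 2) ^ 2 by nlinarith, Real.sqrt_sq (by positivity)]
      ring
    rw [I_sqrt2, e1, hI] at h4
    nlinarith
  have hT3 : b + d * s ≤ 5 * Real.pi / 6 - √3 / 4 + d := by
    have h4 := integral_tangent (√3 / 2) d (by positivity) (by linarith) (by linarith) hd1.le
    have e1 : 2 * √(1 - (√3 / 2) ^ 2) = 1 := by
      rw [show (1 - (√3 / 2) ^ 2 : ℝ) = (1 / 2) ^ 2 by nlinarith, Real.sqrt_sq (by norm_num)]
      norm_num
    rw [I_sqrt, e1, hI] at h4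
    nlinarith
  have hdd : d ^ 2 ≤ 1 := by nlinarith
  rcases ineq_c b d s a (by linarith) hs hdh ha hbs hT2 hT3 with h | ⟨h5, h⟩ | ⟨h5, h⟩ | ⟨h5, h⟩ | ⟨h5, h⟩
  · have hin' : 3 * √3 * (b + a * s) ≤ Real.pi * (√3 * (1 + a - -1) - 0 * (0 + 0 - 0)) := by
      have := mul_le_mul_of_nonneg_left h hs0.le
      nlinarith [this]
    refine hexagon_fr c u w hD (Cone d a) (cone_convex d a) (cone_compact d a hd0)
      (-(√3 / 2)) (-(1 / 2)) (√3) 0 0 1 0 a 0 (-1) _ _
      (mem_seg (by first | linarith | nlinarith) (by linarith))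
      (mem_cg (mem_seg (x := √3 / 2) (y := -(1 / 2)) (by first | linarith | nlinarith) (by linarith)) (by ring) (by ring))
      (mem_cg (mem_seg (x := -(√3 / 2)) (y := 1 / 2) (by first | linarith | nlinarith) hdh) (by ring) (by ring))
      (mem_cg (mem_seg (x := √3 / 2) (y := 1 / 2) (by first | linarith | nlinarith) hdh) (by ring) (by ring))
      (apex_mem d a) (mem_seg (by norm_num) hd0.le)
      ?_ ?_ ?_ ?_ hK (theta_le hin')
    · nlinarith
    · nlinarith [mul_nonneg hs0.le (show 0 ≤ a - 1 / 2 by linarith)]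
    · nlinarith
    · nlinarith [mul_nonneg hs0.le (show 0 ≤ a by linarith)]
  · have hd45 : (3 / 5) ^ 2 + d ^ 2 ≤ 1 := by nlinarith
    have hin' : 3 * √3 * (b + a * s) ≤ Real.pi * (0 * (0 + 0 - 0) - (d + 4 / 5) * (-(6 / 5) + -1 - 1)) := by
      have e1 : (0 : ℝ) * (0 + 0 - 0) - (d + 4 / 5) * (-(6 / 5) + -1 - 1) = 16 / 5 * (d + 4 / 5) := by ring
      rw [e1]
      exact h
    refine hexagon_fr c u w hD (Cone d a) (cone_convex d a) (cone_compact d a hd0)
      (3 / 5) (-(4 / 5)) 0 (d + 4 / 5) (-(6 / 5)) 0 (-1) 0 1 0 _ _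
      (mem_seg (by norm_num) (by linarith))
      (mem_cg (mem_seg (x := 3 / 5) (y := d) hd45 le_rfl) (by ring) (by ring))
      (mem_cg (mem_seg (x := -(3 / 5)) (y := -(4 / 5)) (by norm_num) (by linarith)) (by ring) (by ring))
      (mem_cg (mem_seg (x := -(3 / 5)) (y := d) (by linarith) le_rfl) (by ring) (by ring))
      (mem_seg (by norm_num) (by linarith)) (mem_seg (by norm_num) (by linarith))
      ?_ ?_ ?_ ?_ hK (theta_le hin') <;> first | linarith | nlinarith
  · have hin' : 3 * √3 * (b + a * s) ≤ Real.pi * (0 * (0 + 0 - 0) - 8 / 5 * (-(6 / 5) + -1 - 1)) := by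
      have e1 : (0 : ℝ) * (0 + 0 - 0) - 8 / 5 * (-(6 / 5) + -1 - 1) = 128 / 25 := by norm_num
      rw [e1]
      exact h
    refine hexagon_fr c u w hD (Cone d a) (cone_convex d a) (cone_compact d a hd0)
      (3 / 5) (-(4 / 5)) 0 (8 / 5) (-(6 / 5)) 0 (-1) 0 1 0 _ _
      (mem_seg (by norm_num) (by linarith))
      (mem_cg (mem_seg (x := 3 / 5) (y := 4 / 5) (by norm_num) h5) (by ring) (by norm_num))
      (mem_cg (mem_seg (x := -(3 / 5)) (y := -(4 / 5)) (by norm_num) (by linarith)) (by ring) (by ring))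
      (mem_cg (mem_seg (x := -(3 / 5)) (y := 4 / 5) (by norm_num) h5) (by norm_num) (by norm_num))
      (mem_seg (by norm_num) (by linarith)) (mem_seg (by norm_num) (by linarith))
      ?_ ?_ ?_ ?_ hK (theta_le hin') <;> norm_num
  · have hd34 : (1 / 2) ^ 2 + d ^ 2 ≤ 1 := by nlinarith
    have hin' : 3 * √3 * (b + a * s) ≤ Real.pi * (0 * (0 + 0 - 0) - (d + √3 / 2) * (-1 + -1 - 1)) := by
      have e1 : (0 : ℝ) * (0 + 0 - 0) - (d + √3 / 2) * (-1 + -1 - 1) = 3 * (d + √3 / 2) := by ring
      rw [e1]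
      exact h
    refine hexagon_fr c u w hD (Cone d a) (cone_convex d a) (cone_compact d a hd0)
      (1 / 2) (-(√3 / 2)) 0 (d + √3 / 2) (-1) 0 (-1) 0 1 0 _ _
      (mem_seg (by first | linarith | nlinarith) (by linarith))
      (mem_cg (mem_seg (x := 1 / 2) (y := d) hd34 le_rfl) (by ring) (by ring))
      (mem_cg (mem_seg (x := -(1 / 2)) (y := -(√3 / 2)) (by first | linarith | nlinarith) (by linarith)) (by ring) (by ring))
      (mem_cg (mem_seg (x := -(1 / 2)) (y := d) (by linarith) le_rfl) (by ring) (by ring))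
      (mem_seg (by norm_num) (by linarith)) (mem_seg (by norm_num) (by linarith))
      ?_ ?_ ?_ ?_ hK (theta_le hin') <;> first | linarith | nlinarith
  · have hin' : 3 * √3 * (b + a * s) ≤ Real.pi * (0 * (0 + 0 - 0) - √3 * (-1 + -1 - 1)) := by
      have e1 : Real.pi * (0 * (0 + 0 - 0) - √3 * (-1 + -1 - 1)) = 3 * √3 * Real.pi := by ring
      rw [e1]
      exact mul_le_mul_of_nonneg_left h (by positivity)
    refine hexagon_fr c u w hD (Cone d a) (cone_convex d a) (cone_compact d a hd0)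
      (1 / 2) (-(√3 / 2)) 0 (√3) (-1) 0 (-1) 0 1 0 _ _
      (mem_seg (by first | linarith | nlinarith) (by linarith))
      (mem_cg (mem_seg (x := 1 / 2) (y := √3 / 2) (by first | linarith | nlinarith) h5) (by ring) (by ring))
      (mem_cg (mem_seg (x := -(1 / 2)) (y := -(√3 / 2)) (by first | linarith | nlinarith) (by linarith)) (by ring) (by ring))
      (mem_cg (mem_seg (x := -(1 / 2)) (y := √3 / 2) (by first | linarith | nlinarith) h5) (by ring) (by ring))
      (mem_seg (by norm_num) (by linarith)) (mem_seg (by norm_num) (by linarith))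
      ?_ ?_ ?_ ?_ hK (theta_le hin') <;> first | linarith | nlinarith

theorem cone_all (c u w : E2) (hD : 0 < cr u w) (d a : ℝ) (h0 : -1 < d) (h1 : d ≤ 1) (ha : -1 ≤ a) :
    CovLE ((fun p : ℝ × ℝ => c + fr u w p) '' Cone d a) (2 * Real.pi / √27) := by
  by_cases c0 : a ≤ d
  · have hmem : ((0 : ℝ), a) ∈ Seg d := ⟨by
      show (0 : ℝ) ^ 2 + a ^ 2 ≤ 1
      nlinarith, c0⟩
    have hE : Cone d a = Seg d := by
      unfold Cone
      rw [union_eq_self_of_subset_right (singleton_subset_iff.mpr hmem), (seg_convex d).convexHull_eq]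
    rw [hE]
    exact seg_pos c u w hD d h0
  push Not at c0
  by_cases c1 : a * d ≤ 1
  · have hd1 : d < 1 := by
      rcases h1.lt_or_eq with h | h
      · exact h
      · subst h
        linarith
    have hcos : Real.cos (Real.arccos (-d)) = -d := Real.cos_arccos (by linarith) (by linarith)
    have := cone_pos c u w hD (Real.arccos (-d)) a (Real.arccos_pos.mpr (by linarith))
      (Real.arccos_lt_pi.mpr (by linarith)) (by rw [hcos, neg_neg]; exact c0.le)
      (by rw [hcos, neg_neg]; exact c1)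
    rwa [hcos, neg_neg] at this
  push Not at c1
  have hd0 : 0 < d := by
    by_contra hcon
    push Not at hcon
    by_cases h3 : 0 ≤ a
    · nlinarith
    · push Not at h3
      nlinarith
  have ha1 : 1 < a := by
    by_contra hcon
    push Not at hcon
    nlinarith
  have hE : Cone d a = Cone (1 / a) a := hull_eq d a hd0 h1 ha1 c1
  rw [hE]
  have ha0 : 0 < a := by linarith
  have hd' : 0 < 1 / a := by positivity
  have hd1' : 1 / a < 1 := by rw [div_lt_one ha0]; exact ha1
  have hcos : Real.cos (Real.arccos (-(1 / a))) = -(1 / a) := Real.cos_arccos (by linarith) (by linarith)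
  have := cone_pos c u w hD (Real.arccos (-(1 / a))) a (Real.arccos_pos.mpr (by linarith))
    (Real.arccos_lt_pi.mpr (by linarith)) (by rw [hcos, neg_neg]; linarith)
    (by rw [hcos, neg_neg, mul_one_div_cancel ha0.ne'])
  rwa [hcos, neg_neg] at this

end Pool.Agent.MP49888f.ES2
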